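import Pool.Agent.W2helper44.CP.Stm

set_option autoImplicit false

/-! Project CP, piece INV2. -/

open Set Filter Topology MeasureTheory
open scoped ContDiff Manifold

noncomputable section

namespace Pool.Agent.W2helper44.CP

namespace H92

variable {ι : Type} [Fintype ι]

/-- the image is open, and the local inverse of the extension is a local inverse on `M` -/
lemma loc {M : Set (Eu ι)} {ρ : Eu ι → Eu ι} (hR : Retr M ρ) {η L : ℝ} (hη : 0 < η) (hL : 1 ≤ L)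
    (g1 : ∀ x ∈ M, ∀ y, ‖y - x‖ ≤ η → ρ y ∈ M)
    (g2 : ∀ x ∈ M, ∀ y z, ‖y - x‖ ≤ η → ‖z - x‖ ≤ η → ‖ρ y - ρ z‖ ≤ L * ‖y - z‖ ∧
      ‖fderiv ℝ ρ y - fderiv ℝ ρ z‖ ≤ L * ‖y - z‖)
    (g4 : ∀ x ∈ M, ∀ y, ‖y - x‖ ≤ η → ‖ρ y - x - fderiv ℝ ρ x (y - x)‖ ≤ L * ‖y - x‖ ^ 2)
    (g5 : ∀ x ∈ M, ∀ y ∈ M, ‖y - x‖ ≤ η → ‖y - x - fderiv ℝ ρ x (y - x)‖ ≤ L * ‖y - x‖ ^ 2)
    {ψ : Eu ι → Eu ι} (hm : MapsTo ψ M M) {ε : ℝ} (hε1 : ε ≤ η) (hε2 : ε ≤ 1 / (4 * L))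
    (hψ : ∀ x ∈ M, ‖ψ x - x‖ ≤ ε) {x : Eu ι} (hx : x ∈ M) {g : Eu ι → Eu ι} {U : Set (Eu ι)}
    (hU : IsOpen U) (hxU : ψ x ∈ U) (hg : ContDiffOn ℝ ∞ g U) (hgx : g (ψ x) = x)
    (hgz : ∀ z ∈ U, ψ (ρ (g z)) + (g z - ρ (g z)) = z) :
    ∃ W : Set (Eu ι), IsOpen W ∧ ψ x ∈ W ∧ W ⊆ U ∧ ∀ z ∈ W, z ∈ M → g z ∈ M ∧ ψ (g z) = z := by
  have hgc : ContinuousAt g (ψ x) := hg.continuousOn.continuousAt (hU.mem_nhds hxU)
  have hρc : Continuous ρ := hR.smooth.continuous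
  have h1 : Tendsto (fun z => ‖g z - x‖) (𝓝 (ψ x)) (𝓝 0) := by
    have : Tendsto (fun z => ‖g z - x‖) (𝓝 (ψ x)) (𝓝 ‖g (ψ x) - x‖) :=
      (hgc.sub continuousAt_const).norm
    rwa [hgx, sub_self, norm_zero] at this
  have h2 : Tendsto (fun z => ‖g z - ρ (g z)‖) (𝓝 (ψ x)) (𝓝 0) := by
    have : Tendsto (fun z => ‖g z - ρ (g z)‖) (𝓝 (ψ x)) (𝓝 ‖g (ψ x) - ρ (g (ψ x))‖) :=
      (hgc.sub (hρc.continuousAt.comp hgc)).norm
    rwa [hgx, hR.id x hx, sub_self, norm_zero] at this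
  have hpos : 0 < min η (1 / (8 * L)) := lt_min hη (by positivity)
  have h3 := (h1.eventually (gt_mem_nhds hη)).and ((h2.eventually (gt_mem_nhds hpos)).and
    (hU.mem_nhds hxU))
  obtain ⟨W, hW, hWo, hxW⟩ := eventually_nhds_iff.1 h3
  refine ⟨W, hWo, hxW, fun z hz => (hW z hz).2.2, fun z hz hzM => ?_⟩
  obtain ⟨k1, k2, k3⟩ := hW z hz
  have hy : ρ (g z) ∈ M := g1 x hx _ k1.le
  have ha : ψ (ρ (g z)) ∈ M := hm hy
  set n := g z - ρ (g z) with hn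
  have hnη : ‖n‖ < η := lt_of_lt_of_le k2 (min_le_left _ _)
  have hnL : ‖n‖ < 1 / (8 * L) := lt_of_lt_of_le k2 (min_le_right _ _)
  have e1 : z - ψ (ρ (g z)) = n := by
    have := hgz z k3
    rw [← hn] at this
    rw [sub_eq_iff_eq_add, add_comm]
    exact this.symm
  have m1 : ‖n - fderiv ℝ ρ (ψ (ρ (g z))) n‖ ≤ L * ‖n‖ ^ 2 := by
    have := g5 _ ha z hzM (by rw [e1]; exact hnη.le)
    rwa [e1] at this
  have m2 : ‖fderiv ℝ ρ (ρ (g z)) n‖ ≤ L * ‖n‖ ^ 2 := by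
    have := g4 _ hy (g z) hnη.le
    rw [sub_self, zero_sub, norm_neg] at this
    exact this
  have hψy := hψ _ hy
  have m3 : ‖fderiv ℝ ρ (ψ (ρ (g z))) - fderiv ℝ ρ (ρ (g z))‖ ≤ 1 / 4 := by
    have := (g2 _ hy (ψ (ρ (g z))) (ρ (g z)) (hψy.trans hε1) (by simp [hη.le])).2
    refine this.trans ?_
    have hL0 : 0 < L := by linarith
    calc L * ‖ψ (ρ (g z)) - ρ (g z)‖ ≤ L * (1 / (4 * L)) := by
          gcongr
          exact hψy.trans hε2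
      _ = 1 / 4 := by field_simp
  have m4 : ‖(fderiv ℝ ρ (ψ (ρ (g z))) - fderiv ℝ ρ (ρ (g z))) n‖ ≤ 1 / 4 * ‖n‖ :=
    (ContinuousLinearMap.le_opNorm _ _).trans (by gcongr)
  have hn0 : n = 0 := by
    by_contra hne
    have hnp : 0 < ‖n‖ := norm_pos_iff.2 hne
    have e2 : n = (n - fderiv ℝ ρ (ψ (ρ (g z))) n) +
        (fderiv ℝ ρ (ψ (ρ (g z))) - fderiv ℝ ρ (ρ (g z))) n + fderiv ℝ ρ (ρ (g z)) n := by
      rw [ContinuousLinearMap.sub_apply]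
      abel
    have e3 : ‖n‖ ≤ L * ‖n‖ ^ 2 + 1 / 4 * ‖n‖ + L * ‖n‖ ^ 2 := by
      calc ‖n‖ = ‖(n - fderiv ℝ ρ (ψ (ρ (g z))) n) +
          (fderiv ℝ ρ (ψ (ρ (g z))) - fderiv ℝ ρ (ρ (g z))) n + fderiv ℝ ρ (ρ (g z)) n‖ := by
            rw [← e2]
        _ ≤ ‖n - fderiv ℝ ρ (ψ (ρ (g z))) n‖ +
          ‖(fderiv ℝ ρ (ψ (ρ (g z))) - fderiv ℝ ρ (ρ (g z))) n‖ + ‖fderiv ℝ ρ (ρ (g z)) n‖ :=
            norm_add₃_le
        _ ≤ _ := add_le_add (add_le_add m1 m4) m2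
    have hL0 : 0 < L := by linarith
    have e4 : L * ‖n‖ ^ 2 ≤ 1 / 8 * ‖n‖ := by
      have e5 : L * ‖n‖ ≤ 1 / 8 := by
        calc L * ‖n‖ ≤ L * (1 / (8 * L)) := by gcongr
          _ = 1 / 8 := by field_simp
      calc L * ‖n‖ ^ 2 = L * ‖n‖ * ‖n‖ := by ring
        _ ≤ 1 / 8 * ‖n‖ := by gcongr
    nlinarith
  have e6 : g z = ρ (g z) := by
    rw [hn, sub_eq_zero] at hn0
    exact hn0
  refine ⟨by rw [e6]; exact hy, ?_⟩
  rw [hn0, sub_eq_zero] at e1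
  rw [e6]
  exact e1.symm

end H92

theorem p_INV2 : P_INV2 := by
  intro hINV1 hGEO ι _ M ρ hR
  obtain ⟨η, L, hη, hL, g1, g2, -, g4, g5, -, -⟩ := hGEO ι M ρ hR
  obtain ⟨ε1, hε1, hI⟩ := hINV1 hGEO ι M ρ hR
  have hL0 : 0 < L := by linarith
  refine ⟨min ε1 (min η (1 / (4 * L))), lt_min hε1 (lt_min hη (by positivity)), ?_⟩
  intro ψ hψs hm hψ hc
  obtain ⟨c, hc0, hc⟩ := hc
  have hψ1 : ∀ x ∈ M, ‖ψ x - x‖ ≤ ε1 := fun x hx => (hψ x hx).trans (min_le_left _ _)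
  have hI' := hI ψ hψs hm hψ1 ⟨c, hc0, hc⟩
  -- local inverses
  have hloc : ∀ x ∈ M, ∃ (g : Eu ι → Eu ι) (W : Set (Eu ι)), IsOpen W ∧ ψ x ∈ W ∧
      ContDiffOn ℝ ∞ g W ∧ ∀ z ∈ W, z ∈ M → g z ∈ M ∧ ψ (g z) = z := by
    intro x hx
    obtain ⟨g, U, hU, hxU, hg, hgx, -, hgz⟩ := hI' x hx
    obtain ⟨W, hW1, hW2, hW3, hW4⟩ := H92.loc hR hη hL g1 g2 g4 g5 hm
      ((min_le_right _ _).trans (min_le_left _ _)) ((min_le_right _ _).trans (min_le_right _ _))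
      hψ hx hU hxU hg hgx hgz
    exact ⟨g, W, hW1, hW2, hg.mono hW3, hW4⟩
  have hinj : ∀ x ∈ M, ∀ y ∈ M, ψ x = ψ y → x = y := by
    intro x hx y hy hxy
    have := hc x hx y hy
    rw [hxy, sub_self, norm_zero] at this
    have h2 : ‖x - y‖ ≤ 0 := by nlinarith [norm_nonneg (x - y)]
    exact sub_eq_zero.1 (norm_le_zero_iff.1 h2)
  -- surjectivity
  have hψc : Continuous ψ := hψs.continuous
  have hclosed : IsClosed (ψ '' M) := (hR.cpt.image hψc).isClosed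
  choose! g W hW1 hW2 hW3 hW4 using hloc
  have hsurj : M ⊆ ψ '' M := by
    by_contra hnot
    obtain ⟨z, hzM, hz⟩ := Set.not_subset.1 hnot
    obtain ⟨x0, hx0⟩ := hR.ne
    have hu : IsOpen (⋃ x ∈ M, W x) := isOpen_biUnion fun x hx => hW1 x hx
    have hcov : M ⊆ (⋃ x ∈ M, W x) ∪ (ψ '' M)ᶜ := by
      intro w hw
      by_cases h : w ∈ ψ '' M
      · left
        obtain ⟨x, hx, rfl⟩ := h
        exact mem_biUnion hx (hW2 x hx)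
      · exact Or.inr h
    obtain ⟨w, hwM, hwu, hwv⟩ := hR.conn _ _ hu hclosed.isOpen_compl hcov
      ⟨ψ x0, hm hx0, mem_biUnion hx0 (hW2 x0 hx0)⟩ ⟨z, hzM, hz⟩
    obtain ⟨x, hx, hwx⟩ := mem_iUnion₂.1 hwu
    obtain ⟨h1, h2⟩ := hW4 x hx w hwx hwM
    exact hwv ⟨g x w, h1, h2⟩
  -- the inverse on M
  have hex : ∀ z ∈ M, ∃ x ∈ M, ψ x = z := fun z hz => hsurj hz
  choose! l hl1 hl2 using hex
  -- gluing
  obtain ⟨G, hG⟩ := exists_contMDiffMap_forall_mem_convex_of_local (n := (⊤ : ℕ∞)) 𝓘(ℝ, Eu ι)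
    (F := Eu ι) (t := fun z => {y : Eu ι | z ∈ M → y = l z})
    (by
      intro z
      by_cases hz : z ∈ M
      · have : {y : Eu ι | z ∈ M → y = l z} = {l z} := by
          ext y; simp [hz]
        rw [this]
        exact convex_singleton _
      · have : {y : Eu ι | z ∈ M → y = l z} = univ := by
          ext y; simp [hz]
        rw [this]
        exact convex_univ)
    (by
      intro z
      by_cases hz : z ∈ M
      · obtain ⟨x, hx, rfl⟩ := hsurj hz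
        refine ⟨W x, (hW1 x hx).mem_nhds (hW2 x hx), g x, ?_, ?_⟩
        · exact (contMDiffOn_iff_contDiffOn.2 (hW3 x hx))
        · intro w hw hwM
          obtain ⟨h1, h2⟩ := hW4 x hx w hw hwM
          exact hinj _ h1 _ (hl1 w hwM) (by rw [h2, hl2 w hwM])
      · refine ⟨Mᶜ, hR.cpt.isClosed.isOpen_compl.mem_nhds hz, fun _ => 0, contMDiffOn_const, ?_⟩
        intro w hw hwM
        exact absurd hwM hw)
  have hG' : ∀ z ∈ M, G z = l z := fun z hz => hG z hz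
  refine ⟨hψs, hm, fun z => G z, ?_, ?_, ?_, ?_⟩
  · exact contMDiff_iff_contDiff.1 G.contMDiff
  · intro z hz
    show G z ∈ M
    rw [hG' z hz]
    exact hl1 z hz
  · intro x hx
    show G (ψ x) = x
    rw [hG' _ (hm hx)]
    exact hinj _ (hl1 _ (hm hx)) _ hx (hl2 _ (hm hx))
  · intro x hx
    show ψ (G x) = x
    rw [hG' x hx]
    exact hl2 x hx

end Pool.Agent.W2helper44.CP
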